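import Mathlib
import Pool.Agent.V11313.Conv

namespace Pool.Agent.Results.MP_27f8b5_an.MeanNotPower

open Filter Topology MonoidAlgebra Pool.Agent.V11313.Conv

/-- Membership in `L²(G) = ℓ²(G)`. -/
def MemL {G : Type} (f : G → ℂ) : Prop := Summable fun x => ‖f x‖ ^ 2

/-- The Cesàro mean `(f + T f + ⋯ + Tⁿ⁻¹ f) / n` for the convolution operator `T f = μ * f`. -/
noncomputable def avg {G : Type} [Group G] (μ f : G → ℂ) (n : ℕ) (x : G) : ℂ :=
  (n : ℂ)⁻¹ * ∑ k ∈ Finset.range n, ((conv μ)^[k] f) x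

/-- The convolution operator `λ₂(μ)` is mean ergodic on `ℓ²(G)`: for every `f ∈ ℓ²(G)` the Cesàro
means converge in the norm of `ℓ²(G)`. -/
def MeanErgodic {G : Type} [Group G] (μ : G → ℂ) : Prop :=
  ∀ f, MemL f → ∃ g, MemL g ∧ Tendsto (fun n : ℕ => ∑' x, ‖avg μ f n x - g x‖ ^ 2) atTop (𝓝 0)

/-- The convolution operator `T = λ₂(μ)` is power bounded on `ℓ²(G)`: `‖Tⁿ f‖² ≤ C ‖f‖²`. -/
def PowerBounded {G : Type} [Group G] (μ : G → ℂ) : Prop :=
  ∃ C : ℝ, ∀ (n : ℕ) (f : G → ℂ), MemL f →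
    ∑' x, ‖((conv μ)^[n] f) x‖ ^ 2 ≤ C * ∑' x, ‖f x‖ ^ 2

/-- The function `λ = -(1 + z)/2`. -/
noncomputable def l : ℂ[G3] := (-(1 / 2 : ℂ)) • (1 + s)

/-- The measure. -/
noncomputable def m : ℂ[G3] := l + N

lemma l_comm (x : ℂ[G3]) : l * x = x * l := by
  rw [l, smul_mul_assoc, add_mul, one_mul, s_comm, mul_smul_comm, mul_add, mul_one]

lemma m_pow (k : ℕ) : m ^ (k + 1) = l ^ (k + 1) + ((k : ℂ) + 1) • (N * l ^ k) := by
  induction k with
  | zero => simp [m]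
  | succ k ih =>
    have e1 : N * l ^ k * m = N * l ^ (k + 1) := by
      have e2 : l ^ k * N = N * l ^ k := (Commute.pow_left (l_comm N) k).eq
      rw [m, mul_add, mul_assoc, ← pow_succ, mul_assoc, e2, ← mul_assoc, N_sq, zero_mul, add_zero]
    have e3 : l ^ (k + 1) * N = N * l ^ (k + 1) := (Commute.pow_left (l_comm N) (k + 1)).eq
    rw [pow_succ, ih, add_mul, smul_mul_assoc, e1]
    nth_rewrite 1 [m]
    rw [mul_add, ← pow_succ, e3]
    push_cast
    rw [add_smul ((k : ℂ) + 1) 1, one_smul]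
    abel

/-- the operators -/
noncomputable def L : H2 G3 →L[ℂ] H2 G3 := lam l

lemma norm_U_le (g : G3) : ‖(U g : H2 G3 →L[ℂ] H2 G3)‖ ≤ 1 := by
  refine ContinuousLinearMap.opNorm_le_bound _ zero_le_one fun f => ?_
  have h2 : (0 : ℝ) < (2 : ENNReal).toReal := by norm_num
  rw [one_mul, lp.norm_eq_tsum_rpow h2, lp.norm_eq_tsum_rpow h2]
  apply le_of_eq
  congr 1
  exact (Equiv.mulLeft g⁻¹).tsum_eq (fun i => ‖f i‖ ^ (2 : ENNReal).toReal)

lemma L_eq : L = (-(1 / 2 : ℂ)) • (1 + U (z 1)) := by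
  rw [L, l, map_smul, map_add, map_one, s, lam_single, one_smul]

lemma norm_L_le : ‖L‖ ≤ 1 := by
  rw [L_eq, norm_smul]
  have h1 : ‖(1 : H2 G3 →L[ℂ] H2 G3) + U (z 1)‖ ≤ 1 + 1 :=
    (norm_add_le _ _).trans (add_le_add ContinuousLinearMap.norm_id_le (norm_U_le _))
  have h2 : ‖(-(1 / 2 : ℂ))‖ = 1 / 2 := by
    rw [norm_neg]; norm_num
  rw [h2]
  linarith

lemma norm_L_pow_le (n : ℕ) : ‖L ^ n‖ ≤ 1 := by
  cases n with
  | zero => rw [pow_zero]; exact ContinuousLinearMap.norm_id_le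
  | succ n => exact (norm_pow_le' L n.succ_pos).trans (pow_le_one₀ (norm_nonneg _) norm_L_le)

/-- central binomial bound -/
lemma central (n : ℕ) : (2 * n + 1) * n.centralBinom ^ 2 ≤ 16 ^ n := by
  induction n with
  | zero => simp
  | succ n ih =>
    have h := Nat.succ_mul_centralBinom_succ n
    have h2 : (n + 1) ^ 2 * ((2 * (n + 1) + 1) * (n + 1).centralBinom ^ 2) ≤ (n + 1) ^ 2 * 16 ^ (n + 1) := by
      calc (n + 1) ^ 2 * ((2 * (n + 1) + 1) * (n + 1).centralBinom ^ 2)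
          = (2 * n + 3) * ((n + 1) * (n + 1).centralBinom) ^ 2 := by ring
        _ = (2 * n + 3) * (2 * (2 * n + 1) * n.centralBinom) ^ 2 := by rw [h]
        _ = (4 * ((2 * n + 3) * (2 * n + 1))) * ((2 * n + 1) * n.centralBinom ^ 2) := by ring
        _ ≤ (4 * ((2 * n + 3) * (2 * n + 1))) * 16 ^ n := Nat.mul_le_mul_left _ ih
        _ ≤ (4 * (4 * (n + 1) ^ 2)) * 16 ^ n := by
            apply Nat.mul_le_mul_right
            apply Nat.mul_le_mul_left
            nlinarith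
        _ = (n + 1) ^ 2 * 16 ^ (n + 1) := by ring
    exact Nat.le_of_mul_le_mul_left h2 (by positivity)

/-- norms of finite combinations of point masses -/
lemma norm_sum_sq (t : Finset G3) (c : G3 → ℂ) :
    ‖∑ g ∈ t, lp.single 2 g (c g)‖ ^ 2 = ∑ g ∈ t, ‖c g‖ ^ 2 := by
  have h := lp.norm_sum_single (E := fun _ : G3 => ℂ) (p := 2) (by norm_num) c t
  have e : (2 : ENNReal).toReal = ((2 : ℕ) : ℝ) := by norm_num
  rw [e, Real.rpow_natCast] at h
  rw [h]
  apply Finset.sum_congr rfl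
  intro g _
  rw [Real.rpow_natCast]

lemma sum_sq_le (f : H2 G3) (t : Finset G3) : ∑ g ∈ t, ‖f g‖ ^ 2 ≤ ‖f‖ ^ 2 := by
  have h := lp.sum_rpow_le_norm_rpow (p := 2) (by norm_num) f t
  have e : (2 : ENNReal).toReal = ((2 : ℕ) : ℝ) := by norm_num
  rw [e] at h
  simpa only [Real.rpow_natCast] using h

lemma z_inj (g : G3) : Function.Injective (fun j : ℕ => z j * g) := by
  intro i j h
  have h2 := mul_right_cancel h
  have h3 := congrArg (fun w : G3 => Multiplicative.toAdd w.2) h2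
  simpa [z] using h3

lemma z_add (i j : ℤ) : z i * z j = z (i + j) := by
  ext : 1
  · simp [z]
  · simp [z, ← ofAdd_add]

lemma U_single (g h : G3) : U g (lp.single 2 h (1 : ℂ)) = lp.single 2 (g * h) (1 : ℂ) := by
  ext x
  rw [U_apply, lp.single_apply, lp.single_apply]
  by_cases hx : x = g * h
  · subst hx
    rw [Pi.single_eq_same]
    have : g⁻¹ * (g * h) = h := by group
    rw [this, Pi.single_eq_same]
  · rw [Pi.single_eq_of_ne hx, Pi.single_eq_of_ne]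
    intro h'
    apply hx
    rw [← h']; group

/-- powers of `L` on point masses -/
lemma L_pow_single (n : ℕ) (g : G3) : (L ^ n) (lp.single 2 g (1 : ℂ)) =
    ∑ j ∈ Finset.range (n + 1), lp.single 2 (z j * g) ((-(1 / 2 : ℂ)) ^ n * (n.choose j)) := by
  have h1 : L ^ n = (-(1 / 2 : ℂ)) ^ n • ∑ j ∈ Finset.range (n + 1), (n.choose j : ℂ) • U (z j) := by
    have hc : Commute (1 : H2 G3 →L[ℂ] H2 G3) (U (z 1)) := Commute.one_left _
    have hpow : ∀ j : ℕ, (U (z 1) : H2 G3 →L[ℂ] H2 G3) ^ j = U (z j) := by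
      intro j
      rw [← map_pow]
      congr 1
      induction j with
      | zero => rfl
      | succ j ih => rw [pow_succ, ih, z_add]; push_cast; rfl
    rw [L_eq, smul_pow, add_comm (1 : H2 G3 →L[ℂ] H2 G3), (hc.symm).add_pow]
    congr 1
    apply Finset.sum_congr rfl
    intro j _
    rw [one_pow, mul_one, hpow, ← nsmul_eq_mul', Nat.cast_smul_eq_nsmul]
  rw [h1]
  change (-(1 / 2 : ℂ)) ^ n • ((∑ j ∈ Finset.range (n + 1), (n.choose j : ℂ) • U (z j))
    (lp.single 2 g (1 : ℂ))) = _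
  rw [sum_apply, Finset.smul_sum]
  apply Finset.sum_congr rfl
  intro j _
  rw [_root_.smul_apply, U_single, smul_smul]
  ext x
  rw [lp.coeFn_smul, Pi.smul_apply, lp.single_apply, lp.single_apply, smul_eq_mul]
  by_cases hx : x = z j * g
  · subst hx
    rw [Pi.single_eq_same, Pi.single_eq_same, mul_one]
  · rw [Pi.single_eq_of_ne hx, Pi.single_eq_of_ne hx, mul_zero]

lemma norm_sum_inj (e : ℕ → G3) (he : Function.Injective e) (n : ℕ) (a : ℕ → ℂ) :
    ‖∑ j ∈ Finset.range n, lp.single (E := fun _ : G3 => ℂ) 2 (e j) (a j)‖ ^ 2 =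
      ∑ j ∈ Finset.range n, ‖a j‖ ^ 2 := by
  have h := norm_sum_sq ((Finset.range n).image e) (Function.extend e a 0)
  rw [Finset.sum_image (fun i _ j _ h => he h), Finset.sum_image (fun i _ j _ h => he h)] at h
  simp only [he.extend_apply] at h
  exact h

lemma norm_L_pow_single (n : ℕ) (g : G3) :
    ‖(L ^ n) (lp.single 2 g (1 : ℂ))‖ ^ 4 ≤ 1 / (2 * n + 1) := by
  have h1 : ‖(L ^ n) (lp.single 2 g (1 : ℂ))‖ ^ 2 = (n.centralBinom : ℝ) / 4 ^ n := by
    rw [L_pow_single, norm_sum_inj _ (z_inj g)]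
    have h2 : ∀ j ∈ Finset.range (n + 1), ‖(-(1 / 2 : ℂ)) ^ n * (n.choose j)‖ ^ 2 =
        ((n.choose j ^ 2 : ℕ) : ℝ) / 4 ^ n := by
      intro j _
      rw [norm_mul, norm_pow, norm_neg, Complex.norm_natCast]
      have : ‖(1 / 2 : ℂ)‖ = 1 / 2 := by norm_num
      rw [this, mul_pow, ← pow_mul, mul_comm n 2, pow_mul]
      push_cast
      have h4 : ((1 : ℝ) / 2) ^ 2 = 1 / 4 := by norm_num
      rw [h4, one_div, inv_pow]
      ring
    rw [Finset.sum_congr rfl h2, ← Finset.sum_div, ← Nat.cast_sum, Nat.sum_range_choose_sq,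
      Nat.centralBinom_eq_two_mul_choose]
  have h3 : ‖(L ^ n) (lp.single 2 g (1 : ℂ))‖ ^ 4 = ((n.centralBinom : ℝ) / 4 ^ n) ^ 2 := by
    rw [← h1]; ring
  rw [h3, div_pow, div_le_div_iff₀ (by positivity) (by positivity)]
  have h5 : ((2 * n + 1 : ℕ) : ℝ) * ((n.centralBinom ^ 2 : ℕ) : ℝ) ≤ ((16 ^ n : ℕ) : ℝ) := by
    exact_mod_cast central n
  push_cast at h5
  have h6 : ((4 : ℝ) ^ n) ^ 2 = 16 ^ n := by
    rw [← pow_mul, mul_comm n 2, pow_mul]; norm_num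
  rw [h6]
  linarith

lemma L_pow_single_tendsto (g : G3) :
    Tendsto (fun n : ℕ => ‖(L ^ n) (lp.single 2 g (1 : ℂ))‖) atTop (𝓝 0) := by
  have h1 : Tendsto (fun n : ℕ => ‖(L ^ n) (lp.single 2 g (1 : ℂ))‖ ^ 4) atTop (𝓝 0) := by
    refine squeeze_zero (fun n => by positivity) (fun n => norm_L_pow_single n g) ?_
    have h2 : Tendsto (fun n : ℕ => (1 : ℝ) / ((n : ℝ) + 1)) atTop (𝓝 0) :=
      tendsto_one_div_add_atTop_nhds_zero_nat
    have h3 : Tendsto (fun n : ℕ => 2 * n) atTop atTop :=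
      tendsto_id.const_mul_atTop' (by norm_num)
    refine (h2.comp h3).congr fun n => ?_
    simp
  have h4 := h1.rpow_const (p := (1 / 4 : ℝ)) (Or.inr (by norm_num))
  rw [Real.zero_rpow (by norm_num)] at h4
  refine h4.congr fun n => ?_
  rw [← Real.rpow_natCast, ← Real.rpow_mul (norm_nonneg _)]
  norm_num

lemma L_pow_tendsto (F : H2 G3) : Tendsto (fun n : ℕ => ‖(L ^ n) F‖) atTop (𝓝 0) := by
  -- finite combinations of point masses
  have hfin : ∀ t : Finset G3, Tendsto (fun n : ℕ => ‖(L ^ n) (∑ g ∈ t, lp.single 2 g (F g))‖)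
      atTop (𝓝 0) := by
    intro t
    have h1 : Tendsto (fun n : ℕ => ∑ g ∈ t, ‖F g‖ * ‖(L ^ n) (lp.single 2 g (1 : ℂ))‖) atTop
        (𝓝 (∑ g ∈ t, ‖F g‖ * 0)) :=
      tendsto_finsetSum _ fun g _ => (L_pow_single_tendsto g).const_mul _
    simp only [mul_zero, Finset.sum_const_zero] at h1
    refine squeeze_zero (fun n => norm_nonneg _) (fun n => ?_) h1
    rw [map_sum]
    refine (norm_sum_le _ _).trans (Finset.sum_le_sum fun g _ => ?_)
    have h2 : lp.single 2 g (F g) = F g • lp.single (E := fun _ : G3 => ℂ) 2 g (1 : ℂ) := by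
      rw [← lp.single_smul]
      simp
    rw [h2, map_smul, norm_smul]
  rw [Metric.tendsto_atTop]
  intro ε hε
  have h1 : HasSum (fun g => lp.single 2 g (F g)) F := lp.hasSum_single (by norm_num) F
  obtain ⟨t, ht⟩ := (Metric.tendsto_atTop.1 h1 (ε / 2) (by linarith))
  have ht' := ht t le_rfl
  rw [dist_eq_norm, norm_sub_rev] at ht'
  obtain ⟨M, hM⟩ := Metric.tendsto_atTop.1 (hfin t) (ε / 2) (by linarith)
  refine ⟨M, fun n hn => ?_⟩
  have h2 := hM n hn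
  rw [Real.dist_eq, sub_zero, abs_of_nonneg (norm_nonneg _)] at h2 ⊢
  have h3 : (L ^ n) F = (L ^ n) (F - ∑ g ∈ t, lp.single 2 g (F g)) +
      (L ^ n) (∑ g ∈ t, lp.single 2 g (F g)) := by
    rw [map_sub]; abel
  have h4 : ‖(L ^ n) (F - ∑ g ∈ t, lp.single 2 g (F g))‖ ≤ ‖F - ∑ g ∈ t, lp.single 2 g (F g)‖ := by
    refine (ContinuousLinearMap.le_opNorm _ _).trans ?_
    exact mul_le_of_le_one_left (norm_nonneg _) (norm_L_pow_le n)
  calc ‖(L ^ n) F‖ ≤ ‖(L ^ n) (F - ∑ g ∈ t, lp.single 2 g (F g))‖ +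
        ‖(L ^ n) (∑ g ∈ t, lp.single 2 g (F g))‖ := by rw [h3]; exact norm_add_le _ _
    _ < ε / 2 + ε / 2 := by linarith
    _ = ε := by ring

/-- `1 - L` is left invertible. -/
lemma exists_R : ∃ R : H2 G3 →L[ℂ] H2 G3, R * (1 - L) = 1 := by
  have h : ‖(-(1 / 3 : ℂ)) • (U (z 1) : H2 G3 →L[ℂ] H2 G3)‖ < 1 := by
    rw [norm_smul, norm_neg]
    have h1 : ‖(1 / 3 : ℂ)‖ = 1 / 3 := by norm_num
    rw [h1]
    have := norm_U_le (z 1)
    linarith
  refine ⟨(2 / 3 : ℂ) • ((Units.oneSub _ h)⁻¹ : (H2 G3 →L[ℂ] H2 G3)ˣ), ?_⟩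
  have h2 : (1 - L) = (3 / 2 : ℂ) • ((Units.oneSub _ h : (H2 G3 →L[ℂ] H2 G3)ˣ) : H2 G3 →L[ℂ] H2 G3) := by
    rw [Units.val_oneSub, L_eq, smul_sub, smul_add, smul_smul]
    have e : (3 / 2 : ℂ) * (-(1 / 3)) = -(1 / 2) := by norm_num
    rw [e]
    have e2 : (3 / 2 : ℂ) • (1 : H2 G3 →L[ℂ] H2 G3) = 1 - (-(1 / 2 : ℂ)) • 1 := by
      have : (1 : H2 G3 →L[ℂ] H2 G3) = (1 : ℂ) • 1 := (one_smul _ _).symm
      nth_rewrite 2 [this]
      rw [← sub_smul]
      norm_num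
    rw [e2]
    abel
  rw [h2, smul_mul_smul_comm]
  rw [Units.inv_mul]
  norm_num

lemma geom (n : ℕ) : (1 - L) * ∑ k ∈ Finset.range n, L ^ k = 1 - L ^ n := mul_neg_geom_sum L n

lemma geom' (n : ℕ) : (1 - L) * ∑ j ∈ Finset.range n, ((j : ℂ) + 1) • L ^ j =
    ∑ k ∈ Finset.range n, L ^ k - (n : ℂ) • L ^ n := by
  induction n with
  | zero => simp
  | succ n ih =>
    rw [Finset.sum_range_succ, mul_add, ih, Finset.sum_range_succ, mul_smul_comm, sub_mul, one_mul,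
      ← pow_succ']
    push_cast
    rw [smul_sub, add_smul, add_smul, one_smul, one_smul]
    abel

/-- sums of powers of `T` -/
lemma sum_T (n : ℕ) : ∑ k ∈ Finset.range (n + 1), lam m ^ k =
    ∑ k ∈ Finset.range (n + 1), L ^ k +
      lam N * ∑ j ∈ Finset.range n, ((j : ℂ) + 1) • L ^ j := by
  rw [Finset.sum_range_succ', Finset.sum_range_succ' (fun k => L ^ k)]
  have h : ∀ k ∈ Finset.range n, lam m ^ (k + 1) = L ^ (k + 1) + lam N * (((k : ℂ) + 1) • L ^ k) := by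
    intro k _
    rw [← map_pow, m_pow, map_add, map_pow, map_smul, map_mul, map_pow, mul_smul_comm]
    rfl
  rw [Finset.sum_congr rfl h, Finset.sum_add_distrib, Finset.mul_sum]
  abel

lemma cesaro (F : H2 G3) :
    Tendsto (fun n : ℕ => ‖(n : ℂ)⁻¹ • (∑ k ∈ Finset.range n, lam m ^ k) F‖) atTop (𝓝 0) := by
  obtain ⟨R, hR⟩ := exists_R
  rw [← tendsto_add_atTop_iff_nat 1]
  have hG : ∀ n, ∑ k ∈ Finset.range n, L ^ k = R * (1 - L ^ n) := by
    intro n
    rw [← geom n, ← mul_assoc, hR, one_mul]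
  have hD : ∀ n, ∑ j ∈ Finset.range n, ((j : ℂ) + 1) • L ^ j =
      R * (R * (1 - L ^ n) - (n : ℂ) • L ^ n) := by
    intro n
    rw [← hG n, ← geom' n, ← mul_assoc, hR, one_mul]
  have hb : ∀ n : ℕ, ‖((1 : H2 G3 →L[ℂ] H2 G3) - L ^ n) F‖ ≤ 2 * ‖F‖ := by
    intro n
    rw [_root_.sub_apply]
    refine (norm_sub_le _ _).trans ?_
    have h1 : ‖(L ^ n) F‖ ≤ 1 * ‖F‖ :=
      (ContinuousLinearMap.le_opNorm _ _).trans (mul_le_mul_of_nonneg_right (norm_L_pow_le n) (norm_nonneg _))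
    have h2 : (1 : H2 G3 →L[ℂ] H2 G3) F = F := rfl
    rw [h2]
    linarith
  set K := ‖R‖ * (2 * ‖F‖) + ‖lam N‖ * (‖R‖ * (‖R‖ * (2 * ‖F‖))) with hK
  have h0 : Tendsto (fun n : ℕ => K * (1 / ((n : ℝ) + 1)) + ‖lam N‖ * (‖R‖ * ‖(L ^ n) F‖)) atTop
      (𝓝 (K * 0 + ‖lam N‖ * (‖R‖ * 0))) :=
    (tendsto_one_div_add_atTop_nhds_zero_nat.const_mul K).add
      (((L_pow_tendsto F).const_mul _).const_mul _)
  simp only [mul_zero, add_zero] at h0
  refine squeeze_zero (fun n => norm_nonneg _) (fun n => ?_) h0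
  rw [sum_T, hD, hG, norm_smul]
  have hn : ‖(((n + 1 : ℕ) : ℂ))⁻¹‖ = 1 / ((n : ℝ) + 1) := by
    rw [norm_inv, Complex.norm_natCast]
    push_cast
    rw [one_div]
  rw [hn, _root_.add_apply]
  have e1 : ‖(R * (1 - L ^ (n + 1))) F‖ ≤ ‖R‖ * (2 * ‖F‖) :=
    (ContinuousLinearMap.le_opNorm R _).trans (mul_le_mul_of_nonneg_left (hb _) (norm_nonneg _))
  have e2 : ‖(lam N * (R * (R * (1 - L ^ n) - (n : ℂ) • L ^ n))) F‖ ≤
      ‖lam N‖ * (‖R‖ * (‖R‖ * (2 * ‖F‖) + n * ‖(L ^ n) F‖)) := by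
    refine (ContinuousLinearMap.le_opNorm (lam N) _).trans ?_
    refine mul_le_mul_of_nonneg_left ?_ (norm_nonneg _)
    refine (ContinuousLinearMap.le_opNorm R _).trans ?_
    refine mul_le_mul_of_nonneg_left ?_ (norm_nonneg _)
    have e3 : (R * ((1 : H2 G3 →L[ℂ] H2 G3) - L ^ n) - (n : ℂ) • L ^ n) F =
        (R * ((1 : H2 G3 →L[ℂ] H2 G3) - L ^ n)) F - ((n : ℂ) • L ^ n) F := rfl
    change ‖(R * ((1 : H2 G3 →L[ℂ] H2 G3) - L ^ n) - (n : ℂ) • L ^ n) F‖ ≤ _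
    rw [e3]
    refine (norm_sub_le _ _).trans ?_
    refine add_le_add ?_ ?_
    · exact (ContinuousLinearMap.le_opNorm R _).trans
        (mul_le_mul_of_nonneg_left (hb _) (norm_nonneg _))
    · rw [_root_.smul_apply, norm_smul, Complex.norm_natCast]
  have hpos : 0 < (n : ℝ) + 1 := by positivity
  calc 1 / ((n : ℝ) + 1) * ‖(R * (1 - L ^ (n + 1))) F +
        (lam N * (R * (R * (1 - L ^ n) - (n : ℂ) • L ^ n))) F‖
      ≤ 1 / ((n : ℝ) + 1) * (‖R‖ * (2 * ‖F‖) +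
          ‖lam N‖ * (‖R‖ * (‖R‖ * (2 * ‖F‖) + n * ‖(L ^ n) F‖))) := by
        apply mul_le_mul_of_nonneg_left _ (by positivity)
        exact (norm_add_le _ _).trans (add_le_add e1 e2)
    _ = K * (1 / ((n : ℝ) + 1)) + (n / ((n : ℝ) + 1)) * (‖lam N‖ * (‖R‖ * ‖(L ^ n) F‖)) := by
        rw [hK]; field_simp; ring
    _ ≤ K * (1 / ((n : ℝ) + 1)) + 1 * (‖lam N‖ * (‖R‖ * ‖(L ^ n) F‖)) := by
        gcongr
        rw [div_le_one hpos]
        linarith
    _ = _ := by ring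

/-- coefficients of `N λⁿ (1 + z + ⋯ + z^(M-1))` -/
lemma coeff_mul_s (x : ℂ[G3]) (k : ℕ) (g : G3) : (x * s ^ k).coeff g = x.coeff (g * z (-k)) := by
  rw [s_pow, coeff_mul_single_eq_coeff_mul (g * z (-k)), mul_one]
  intro y _
  have h : z (-k) * z k = 1 := by rw [z_add, neg_add_cancel]; rfl
  have h' : z k * z (-k) = 1 := by rw [z_add, add_neg_cancel]; rfl
  constructor
  · intro hy
    rw [← hy, mul_assoc, h', mul_one]
  · intro hy
    rw [hy, mul_assoc, h, mul_one]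

lemma bz (i : ℤ) (k : ℤ) : ((b, Multiplicative.ofAdd i) : G3) * z (-k) =
    (b, Multiplicative.ofAdd (i - k)) := by
  ext : 1
  · simp [z]
  · change Multiplicative.ofAdd i * Multiplicative.ofAdd (-k) = _
    rw [← ofAdd_add, sub_eq_add_neg]

lemma coeff_base (M : ℕ) (i : ℕ) (hi : i < M) :
    (N * ∑ j ∈ Finset.range M, s ^ j).coeff (b, Multiplicative.ofAdd (i : ℤ)) = 1 := by
  rw [Finset.mul_sum, coeff_sum, Finsupp.finsetSum_apply, Finset.sum_eq_single i]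
  · rw [coeff_mul_s, bz, sub_self]
    exact N_coeff_b
  · intro j _ hj
    rw [coeff_mul_s, bz]
    apply N_coeff_ne
    intro h
    have h2 := congrArg Multiplicative.toAdd h
    simp at h2
    omega
  · intro h
    exact absurd (Finset.mem_range.2 hi) h

lemma coeff_lpow (M n : ℕ) : ∀ i : ℕ, n ≤ i → i < M →
    (N * (∑ j ∈ Finset.range M, s ^ j) * l ^ n).coeff (b, Multiplicative.ofAdd (i : ℤ)) = (-1) ^ n := by
  induction n with
  | zero => intro i _ hi; rw [pow_zero, mul_one, coeff_base M i hi, pow_zero]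
  | succ n ih =>
    intro i hi hiM
    have e : N * (∑ j ∈ Finset.range M, s ^ j) * l ^ (n + 1) =
        (-(1 / 2 : ℂ)) • (N * (∑ j ∈ Finset.range M, s ^ j) * l ^ n +
          N * (∑ j ∈ Finset.range M, s ^ j) * l ^ n * s ^ 1) := by
      rw [pow_succ, ← mul_assoc]
      nth_rewrite 2 [l]
      rw [mul_smul_comm, mul_add, mul_one, pow_one]
    rw [e, coeff_smul, Finsupp.smul_apply, coeff_add, Finsupp.add_apply, coeff_mul_s, bz,
      ih i (by omega) hiM]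
    have e2 : ((i : ℤ) - ((1 : ℕ) : ℤ)) = ((i - 1 : ℕ) : ℤ) := by omega
    rw [e2, ih (i - 1) (by omega) (by omega), pow_succ, smul_eq_mul]
    ring

lemma lam_delta (x : ℂ[G3]) (g : G3) : (lam x (lp.single 2 1 (1 : ℂ))) g = x.coeff g := by
  rw [lam_apply, conv, tsum_eq_single g]
  · rw [lp.single_apply]
    simp
  · intro y hy
    rw [lp.single_apply, Pi.single_eq_of_ne, mul_zero]
    intro h
    apply hy
    have := congrArg (fun w => y * w) h
    simpa using this.symm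

/-- test vectors -/
noncomputable def v (M : ℕ) : H2 G3 := lam (∑ j ∈ Finset.range M, s ^ j) (lp.single 2 1 (1 : ℂ))

lemma norm_v (M : ℕ) : ‖v M‖ ^ 2 = M := by
  have h : v M = ∑ j ∈ Finset.range M, lp.single (E := fun _ : G3 => ℂ) 2 (z j * 1) (1 : ℂ) := by
    rw [v, map_sum, sum_apply]
    apply Finset.sum_congr rfl
    intro j _
    rw [s_pow, lam_single, one_smul, U_single]
  rw [h, norm_sum_inj _ (z_inj 1)]
  simp

lemma norm_NLv (M n : ℕ) (hn : n ≤ M) : (M : ℝ) - n ≤ ‖(lam N * L ^ n) (v M)‖ ^ 2 := by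
  have h : (lam N * L ^ n) (v M) =
      lam (N * (∑ j ∈ Finset.range M, s ^ j) * l ^ n) (lp.single 2 1 (1 : ℂ)) := by
    have e : N * (∑ j ∈ Finset.range M, s ^ j) * l ^ n = N * l ^ n * ∑ j ∈ Finset.range M, s ^ j := by
      rw [mul_assoc, mul_assoc]
      congr 1
      exact ((Commute.pow_left (l_comm _) n).eq).symm
    rw [e, map_mul, map_mul, map_pow]
    rfl
  rw [h]
  have h1 := sum_sq_le (lam (N * (∑ j ∈ Finset.range M, s ^ j) * l ^ n) (lp.single 2 1 (1 : ℂ)))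
    ((Finset.Ico n M).image fun i : ℕ => ((b, Multiplicative.ofAdd (i : ℤ)) : G3))
  rw [Finset.sum_image] at h1
  · refine le_trans (le_of_eq ?_) h1
    have h2 : ∀ i ∈ Finset.Ico n M, ‖(lam (N * (∑ j ∈ Finset.range M, s ^ j) * l ^ n)
        (lp.single 2 1 (1 : ℂ))) ((b, Multiplicative.ofAdd (i : ℤ)) : G3)‖ ^ 2 = 1 := by
      intro i hi
      rw [Finset.mem_Ico] at hi
      rw [lam_delta, coeff_lpow M n i hi.1 hi.2]
      simp
    rw [Finset.sum_congr rfl h2]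
    simp [Nat.cast_sub hn]
  · intro i _ j _ hij
    have h3 := congrArg (fun w : G3 => Multiplicative.toAdd w.2) hij
    simpa using h3

/-- an element of `ℓ²` from a square summable function -/
lemma memlp_of {f : G3 → ℂ} (hf : MemL f) : Memℓp f 2 := by
  apply memℓp_gen
  have e : (2 : ENNReal).toReal = ((2 : ℕ) : ℝ) := by norm_num
  rw [e]
  simp only [Real.rpow_natCast]
  exact hf

lemma memL_coe (F : H2 G3) : MemL (F : G3 → ℂ) := by
  have h := (lp.memℓp F).summable (by norm_num)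
  have e : (2 : ENNReal).toReal = ((2 : ℕ) : ℝ) := by norm_num
  rw [e] at h
  simp only [Real.rpow_natCast] at h
  exact h

lemma norm_sq (F : H2 G3) : ‖F‖ ^ 2 = ∑' x, ‖F x‖ ^ 2 := by
  have h := lp.norm_rpow_eq_tsum (p := 2) (by norm_num) F
  have e : (2 : ENNReal).toReal = ((2 : ℕ) : ℝ) := by norm_num
  rw [e] at h
  simpa only [Real.rpow_natCast] using h

lemma iterate_eq (F : H2 G3) (k : ℕ) : (conv m.coeff)^[k] (F : G3 → ℂ) = ((lam m ^ k) F : H2 G3) := by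
  induction k with
  | zero => rfl
  | succ k ih =>
    rw [Function.iterate_succ_apply', ih]
    funext x
    rw [← lam_apply, pow_succ']
    rfl

lemma mean : MeanErgodic (m.coeff : G3 → ℂ) := by
  intro f hf
  obtain ⟨F, hF⟩ : ∃ F : H2 G3, (F : G3 → ℂ) = f := ⟨⟨f, memlp_of hf⟩, rfl⟩
  refine ⟨0, by simp [MemL], ?_⟩
  have h := (cesaro F).pow 2
  rw [zero_pow two_ne_zero] at h
  refine h.congr fun n => ?_
  rw [norm_sq]
  apply tsum_congr
  intro x
  congr 2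
  rw [Pi.zero_apply, sub_zero, avg, lp.coeFn_smul, Pi.smul_apply, smul_eq_mul]
  congr 1
  have h2 : ((∑ k ∈ Finset.range n, lam m ^ k) F : H2 G3) x =
      ∑ k ∈ Finset.range n, ((lam m ^ k) F : H2 G3) x := by
    rw [sum_apply, lp.coeFn_sum, Finset.sum_apply]
  rw [h2]
  apply Finset.sum_congr rfl
  intro k _
  rw [← hF, iterate_eq]

lemma not_power : ¬ PowerBounded (m.coeff : G3 → ℂ) := by
  rintro ⟨C, hC⟩
  have h1 : ∀ (n : ℕ) (F : H2 G3), ‖(lam m ^ n) F‖ ^ 2 ≤ C * ‖F‖ ^ 2 := by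
    intro n F
    rw [norm_sq, norm_sq, ← iterate_eq]
    exact hC n F (memL_coe F)
  have hC0 : 0 ≤ C := by
    have h2 := h1 0 (v 1)
    rw [norm_v] at h2
    have h3 : 0 ≤ ‖(lam m ^ 0) (v 1)‖ ^ 2 := by positivity
    rw [Nat.cast_one, mul_one] at h2
    linarith
  have h2 : ∀ (n : ℕ) (F : H2 G3), ‖(lam m ^ n) F‖ ≤ Real.sqrt C * ‖F‖ := by
    intro n F
    have := Real.sqrt_le_sqrt (h1 n F)
    rwa [Real.sqrt_sq (norm_nonneg _), Real.sqrt_mul hC0, Real.sqrt_sq (norm_nonneg _)] at this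
  -- bound for `N Lⁿ`
  have h3 : ∀ (n : ℕ) (F : H2 G3), ((n : ℝ) + 1) * ‖(lam N * L ^ n) F‖ ≤ (Real.sqrt C + 1) * ‖F‖ := by
    intro n F
    have e1 : ((n : ℂ) + 1) • (lam N * L ^ n) F = (lam m ^ (n + 1)) F - (L ^ (n + 1)) F := by
      have : lam m ^ (n + 1) = L ^ (n + 1) + ((n : ℂ) + 1) • (lam N * L ^ n) := by
        rw [← map_pow, m_pow, map_add, map_pow, map_smul, map_mul, map_pow]
        rfl
      rw [this, _root_.add_apply, _root_.smul_apply]
      abel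
    have e2 : ‖((n : ℂ) + 1) • (lam N * L ^ n) F‖ = ((n : ℝ) + 1) * ‖(lam N * L ^ n) F‖ := by
      rw [norm_smul]
      congr 1
      have : ((n : ℂ) + 1) = ((n + 1 : ℕ) : ℂ) := by push_cast; rfl
      rw [this, Complex.norm_natCast]
      push_cast; rfl
    rw [← e2, e1]
    refine (norm_sub_le _ _).trans ?_
    have h4 : ‖(L ^ (n + 1)) F‖ ≤ 1 * ‖F‖ :=
      (ContinuousLinearMap.le_opNorm _ _).trans
        (mul_le_mul_of_nonneg_right (norm_L_pow_le (n + 1)) (norm_nonneg _))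
    have h5 := h2 (n + 1) F
    linarith
  obtain ⟨n, hn⟩ := exists_nat_gt (2 * (Real.sqrt C + 1) ^ 2)
  have hn0 : (0 : ℝ) < n := by
    have : 0 ≤ 2 * (Real.sqrt C + 1) ^ 2 := by positivity
    linarith
  have h4 := h3 n (v (2 * n))
  have h5 := norm_NLv (2 * n) n (by omega)
  have h6 : (((n : ℝ) + 1) * ‖(lam N * L ^ n) (v (2 * n))‖) ^ 2 ≤
      ((Real.sqrt C + 1) * ‖v (2 * n)‖) ^ 2 := by
    gcongr
  rw [mul_pow, mul_pow, norm_v] at h6
  push_cast at h5 h6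
  have h7 : ((n : ℝ) + 1) ^ 2 * n ≤ (Real.sqrt C + 1) ^ 2 * (2 * n) := by
    refine le_trans ?_ h6
    apply mul_le_mul_of_nonneg_left _ (by positivity)
    linarith
  have h8 : ((n : ℝ) + 1) ^ 2 ≤ 2 * (Real.sqrt C + 1) ^ 2 := by
    have : ((n : ℝ) + 1) ^ 2 * n ≤ (2 * (Real.sqrt C + 1) ^ 2) * n := by linarith
    exact le_of_mul_le_mul_right this hn0
  nlinarith

/-- There are a (discrete) group `G` and a bounded complex measure `μ` on it, given by a summable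
function, such that the convolution operator by `μ` on `L²(G) = ℓ²(G)` is mean ergodic but not power
bounded. -/
theorem result : ∃ (G : Type) (_ : Group G) (μ : G → ℂ), Summable (fun x => ‖μ x‖) ∧
    MeanErgodic μ ∧ ¬ PowerBounded μ := by
  refine ⟨G3, inferInstance, m.coeff, ?_, mean, not_power⟩
  apply summable_of_ne_finset_zero (s := m.coeff.support)
  intro x hx
  rw [Finsupp.notMem_support_iff.1 hx, norm_zero]

end Pool.Agent.Results.MP_27f8b5_an.MeanNotPower
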